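import Pool.Agent.LE.StmtsQF

/-!
Row TRI (squad LQF): a trace inequality.
-/

set_option autoImplicit false

open scoped BigOperators Matrix ComplexOrder

namespace Pool.Agent.LE.QF.H41

theorem pow_pair {X Y : ℝ} (hX : 0 ≤ X) (hY : 0 ≤ Y) (i j : ℕ) :
    X ^ i * Y ^ j + Y ^ i * X ^ j ≤ X ^ (i + j) + Y ^ (i + j) := by
  have h : 0 ≤ (X ^ i - Y ^ i) * (X ^ j - Y ^ j) := by
    rcases le_total X Y with h | h
    · exact mul_nonneg_of_nonpos_of_nonpos (sub_nonpos.2 (pow_le_pow_left₀ hX h i))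
        (sub_nonpos.2 (pow_le_pow_left₀ hX h j))
    · exact mul_nonneg (sub_nonneg.2 (pow_le_pow_left₀ hY h i))
        (sub_nonneg.2 (pow_le_pow_left₀ hY h j))
  rw [pow_add, pow_add]
  nlinarith [h]

theorem real_ineq {n : Type} [Fintype n] (w : n → n → ℝ) (hw : ∀ a b, 0 ≤ w a b)
    (hs : ∀ a b, w a b = w b a) (x : n → ℝ) (i j : ℕ) (hx : ∀ a, |x a| ^ (i + j) = x a ^ (i + j)) :
    ∑ a, ∑ b, w a b * (x b ^ i * x a ^ j) ≤ ∑ a, ∑ b, w a b * x a ^ (i + j) := by
  have h1 : ∑ a, ∑ b, w a b * (x b ^ i * x a ^ j) = ∑ a, ∑ b, w a b * (x a ^ i * x b ^ j) := by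
    rw [Finset.sum_comm]
    refine Finset.sum_congr rfl fun a _ => Finset.sum_congr rfl fun b _ => ?_
    rw [hs b a]
  have h2 : ∑ a, ∑ b, w a b * x a ^ (i + j) = ∑ a, ∑ b, w a b * x b ^ (i + j) := by
    rw [Finset.sum_comm]
    refine Finset.sum_congr rfl fun a _ => Finset.sum_congr rfl fun b _ => ?_
    rw [hs b a]
  have h3 : ∑ a, ∑ b, w a b * (x b ^ i * x a ^ j) + ∑ a, ∑ b, w a b * (x a ^ i * x b ^ j) ≤
      ∑ a, ∑ b, w a b * x a ^ (i + j) + ∑ a, ∑ b, w a b * x b ^ (i + j) := by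
    rw [← Finset.sum_add_distrib, ← Finset.sum_add_distrib]
    refine Finset.sum_le_sum fun a _ => ?_
    rw [← Finset.sum_add_distrib, ← Finset.sum_add_distrib]
    refine Finset.sum_le_sum fun b _ => ?_
    rw [← mul_add, ← mul_add]
    refine mul_le_mul_of_nonneg_left ?_ (hw a b)
    calc x b ^ i * x a ^ j + x a ^ i * x b ^ j
        ≤ |x b| ^ i * |x a| ^ j + |x a| ^ i * |x b| ^ j := by
          refine add_le_add ?_ ?_
          · rw [← abs_pow, ← abs_pow, ← abs_mul]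
            exact le_abs_self _
          · rw [← abs_pow, ← abs_pow, ← abs_mul]
            exact le_abs_self _
      _ = |x a| ^ i * |x b| ^ j + |x b| ^ i * |x a| ^ j := add_comm _ _
      _ ≤ |x a| ^ (i + j) + |x b| ^ (i + j) := pow_pair (abs_nonneg _) (abs_nonneg _) i j
      _ = x a ^ (i + j) + x b ^ (i + j) := by rw [hx a, hx b]
  rw [← h1, ← h2] at h3
  linarith

theorem tri : TriStmt := by
  intro 𝕜 _ n _ _ v g k hv hg hk
  obtain ⟨U, hU⟩ : ∃ U : Matrix n n 𝕜, U = (hv.eigenvectorUnitary : Matrix n n 𝕜) := ⟨_, rfl⟩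
  have hUU : Matrix.conjTranspose U * U = 1 := by
    rw [hU]
    exact Unitary.coe_star_mul_self hv.eigenvectorUnitary
  have hUU' : U * Matrix.conjTranspose U = 1 := by
    rw [hU]
    exact Unitary.coe_mul_star_self hv.eigenvectorUnitary
  obtain ⟨x, hx⟩ : ∃ x : n → ℝ, x = hv.eigenvalues := ⟨_, rfl⟩
  have hvU : v = U * Matrix.diagonal (fun a => ((x a : ℝ) : 𝕜)) * Matrix.conjTranspose U := by
    conv_lhs => rw [hv.spectral_theorem, Unitary.conjStarAlgAut_apply]
    rw [hU, hx]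
    rfl
  have hvp : ∀ j : ℕ, v ^ j = U * Matrix.diagonal (fun a => ((x a : ℝ) : 𝕜) ^ j) *
      Matrix.conjTranspose U := by
    intro j
    induction j with
    | zero =>
      simp [hUU']
    | succ j ih =>
      rw [pow_succ, ih]
      conv_lhs => rw [hvU]
      have e1 : U * Matrix.diagonal (fun a => ((x a : ℝ) : 𝕜) ^ j) * Matrix.conjTranspose U *
          (U * Matrix.diagonal (fun a => ((x a : ℝ) : 𝕜)) * Matrix.conjTranspose U) =
          U * (Matrix.diagonal (fun a => ((x a : ℝ) : 𝕜) ^ j) * (Matrix.conjTranspose U * U) *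
            Matrix.diagonal (fun a => ((x a : ℝ) : 𝕜))) * Matrix.conjTranspose U := by
        simp only [Matrix.mul_assoc]
      rw [e1, hUU, Matrix.mul_one, Matrix.diagonal_mul_diagonal]
      simp only [pow_succ]
  obtain ⟨h, hh⟩ : ∃ h : Matrix n n 𝕜, h = Matrix.conjTranspose U * g * U := ⟨_, rfl⟩
  have hherm : ∀ a b, h b a = (starRingEnd 𝕜) (h a b) := by
    have : Matrix.conjTranspose h = h := by
      rw [hh, Matrix.conjTranspose_mul, Matrix.conjTranspose_mul, Matrix.conjTranspose_conjTranspose,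
        hg.eq, Matrix.mul_assoc]
    intro a b
    conv_lhs => rw [← this]
    rfl
  have hnorm : ∀ a b, h a b * h b a = ((‖h a b‖ ^ 2 : ℝ) : 𝕜) := by
    intro a b
    rw [hherm a b, RCLike.mul_conj]
    push_cast
    rfl
  have hL : ∀ i j : ℕ, RCLike.re (Matrix.trace (g * v ^ i * g * v ^ j)) =
      ∑ a, ∑ b, ‖h a b‖ ^ 2 * (x b ^ i * x a ^ j) := by
    intro i j
    have e1 : Matrix.trace (g * v ^ i * g * v ^ j) =
        Matrix.trace (h * Matrix.diagonal (fun a => ((x a : ℝ) : 𝕜) ^ i) * h *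
          Matrix.diagonal (fun a => ((x a : ℝ) : 𝕜) ^ j)) := by
      rw [hvp i, hvp j, hh, ← Matrix.mul_assoc, ← Matrix.mul_assoc (g * _ * g), Matrix.trace_mul_comm]
      simp only [Matrix.mul_assoc]
    rw [e1]
    unfold Matrix.trace
    rw [map_sum]
    refine Finset.sum_congr rfl fun a _ => ?_
    rw [Matrix.diag_apply, Matrix.mul_diagonal, Matrix.mul_apply, Finset.sum_mul, map_sum]
    refine Finset.sum_congr rfl fun b _ => ?_
    rw [Matrix.mul_diagonal]
    have e2 : h a b * ((x b : ℝ) : 𝕜) ^ i * h b a * ((x a : ℝ) : 𝕜) ^ j =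
        (((‖h a b‖ ^ 2 * (x b ^ i * x a ^ j) : ℝ)) : 𝕜) := by
      have : h a b * ((x b : ℝ) : 𝕜) ^ i * h b a * ((x a : ℝ) : 𝕜) ^ j =
          h a b * h b a * (((x b : ℝ) : 𝕜) ^ i * ((x a : ℝ) : 𝕜) ^ j) := by ring
      rw [this, hnorm a b]
      push_cast
      ring
    rw [e2, RCLike.ofReal_re]
  have hR : RCLike.re (Matrix.trace (v ^ k * (g * g))) = ∑ a, ∑ b, ‖h a b‖ ^ 2 * x a ^ k := by
    have e0 := hL 0 k
    rw [pow_zero, Matrix.mul_one, Matrix.trace_mul_comm] at e0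
    rw [e0]
    simp only [pow_zero, one_mul]
  rw [map_sum, hR]
  have hxk : ∀ a, |x a| ^ k = x a ^ k := by
    intro a
    rcases hk with hk | hk
    · rw [abs_of_nonneg]
      rw [hx]
      exact hk.eigenvalues_nonneg a
    · exact hk.pow_abs _
  calc ∑ i ∈ Finset.range (k + 1), RCLike.re (Matrix.trace (g * v ^ i * g * v ^ (k - i)))
      ≤ ∑ _i ∈ Finset.range (k + 1), ∑ a, ∑ b, ‖h a b‖ ^ 2 * x a ^ k := by
        refine Finset.sum_le_sum fun i hi => ?_
        have hi' : i + (k - i) = k := by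
          have := Finset.mem_range.1 hi
          omega
        rw [hL]
        have := real_ineq (fun a b => ‖h a b‖ ^ 2) (fun a b => by positivity)
          (fun a b => by
            show ‖h a b‖ ^ 2 = ‖h b a‖ ^ 2
            rw [hherm a b, RCLike.norm_conj]) x i (k - i) (by rw [hi']; exact hxk)
        rw [hi'] at this
        exact this
    _ = (k + 1) * ∑ a, ∑ b, ‖h a b‖ ^ 2 * x a ^ k := by
        rw [Finset.sum_const, Finset.card_range, nsmul_eq_mul]
        push_cast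
        ring

end Pool.Agent.LE.QF.H41
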