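import Pool.Agent.LE.StmtsQF

/-!
Row THB (squad LQF): the inverse of `1 - Y` in the sup norm.
-/

set_option autoImplicit false

open scoped BigOperators Matrix ComplexOrder

noncomputable section

namespace Pool.Agent.LE.QF.H41

open Pool.Agent.LE.QD

section
variable {X : Type} [Fintype X]

theorem n2_nn (u : X → ℂ) : 0 ≤ n2 u := Finset.sum_nonneg fun _ _ => by positivity

theorem n2_zero {u : X → ℂ} (h : n2 u ≤ 0) : u = 0 := by
  funext a
  have h1 : ‖u a‖ ^ 2 ≤ n2 u := Finset.single_le_sum (f := fun x => ‖u x‖ ^ 2)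
    (fun _ _ => by positivity) (Finset.mem_univ a)
  have h2 : ‖u a‖ ^ 2 = 0 := le_antisymm (h1.trans h) (by positivity)
  have h3 : ‖u a‖ = 0 := pow_eq_zero_iff (two_ne_zero) |>.1 h2
  simpa using h3

/-- the norm of `ℓ²` -/
def nr (u : X → ℂ) : ℝ := Real.sqrt (n2 u)

theorem nr_eq (u : X → ℂ) : nr u = ‖(WithLp.toLp 2 u : EuclideanSpace ℂ X)‖ := by
  rw [EuclideanSpace.norm_eq]
  rfl

theorem nr_add (u v : X → ℂ) : nr (u + v) ≤ nr u + nr v := by
  rw [nr_eq, nr_eq, nr_eq, WithLp.toLp_add]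
  exact norm_add_le _ _

end

theorem thb : ThbStmt := by
  intro X _ _ Y ε₁ s k₀ he he2 hs hk hX hY hrow
  have hyn : ∀ u, nr (Y *ᵥ u) ≤ ε₁ * nr u := by
    intro u
    unfold nr
    rw [← Real.sqrt_sq he, ← Real.sqrt_mul (by positivity)]
    exact Real.sqrt_le_sqrt (hY u)
  have hinj : ∀ u : X → ℂ, (1 - Y) *ᵥ u = 0 → u = 0 := by
    intro u hu
    rw [Matrix.sub_mulVec, Matrix.one_mulVec, sub_eq_zero] at hu
    apply n2_zero
    have h1 := hY u
    rw [← hu] at h1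
    have h2 : ε₁ ^ 2 ≤ 1 / 4 := by nlinarith
    nlinarith [n2_nn u]
  have hunit : IsUnit (1 - Y).det := by
    rw [← Matrix.isUnit_iff_isUnit_det, ← Matrix.mulVec_injective_iff_isUnit]
    intro u v huv
    have : (1 - Y) *ᵥ (u - v) = 0 := by
      rw [Matrix.mulVec_sub]
      exact sub_eq_zero.2 huv
    exact sub_eq_zero.1 (hinj _ this)
  refine ⟨hunit, fun a => ?_⟩
  obtain ⟨Θ, hΘ⟩ : ∃ Θ, Θ = (1 - Y)⁻¹ := ⟨_, rfl⟩
  have hΘ1 : (1 - Y) * Θ = 1 := by rw [hΘ]; exact Matrix.mul_nonsing_inv _ hunit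
  rw [← hΘ]
  -- the norm of `Θ`
  have hΘn : ∀ u, nr (Θ *ᵥ u) ≤ 2 * nr u := by
    intro u
    have h1 : Θ *ᵥ u = u + Y *ᵥ (Θ *ᵥ u) := by
      have h2 : (1 - Y) *ᵥ (Θ *ᵥ u) = u := by
        rw [Matrix.mulVec_mulVec, hΘ1, Matrix.one_mulVec]
      rw [Matrix.sub_mulVec, Matrix.one_mulVec] at h2
      rw [← sub_eq_iff_eq_add]
      exact h2
    have h3 := nr_add u (Y *ᵥ (Θ *ᵥ u))
    rw [← h1] at h3
    have h4 := hyn (Θ *ᵥ u)
    have h5 : 0 ≤ nr (Θ *ᵥ u) := Real.sqrt_nonneg _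
    nlinarith
  have hpow : ∀ (k : ℕ) (u : X → ℂ), nr ((Y ^ k) *ᵥ u) ≤ ε₁ ^ k * nr u := by
    intro k
    induction k with
    | zero => intro u; simp
    | succ k ih =>
      intro u
      rw [pow_succ, ← Matrix.mulVec_mulVec]
      calc nr ((Y ^ k) *ᵥ (Y *ᵥ u)) ≤ ε₁ ^ k * nr (Y *ᵥ u) := ih _
        _ ≤ ε₁ ^ k * (ε₁ * nr u) := by
            exact mul_le_mul_of_nonneg_left (hyn u) (by positivity)
        _ = ε₁ ^ (k + 1) * nr u := by ring
  obtain ⟨M, hM⟩ : ∃ M, M = Y ^ k₀ * Θ := ⟨_, rfl⟩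
  have hMn : ∀ u, nr (M *ᵥ u) ≤ 2 * ε₁ ^ k₀ * nr u := by
    intro u
    rw [hM, ← Matrix.mulVec_mulVec]
    calc nr ((Y ^ k₀) *ᵥ (Θ *ᵥ u)) ≤ ε₁ ^ k₀ * nr (Θ *ᵥ u) := hpow _ _
      _ ≤ ε₁ ^ k₀ * (2 * nr u) := mul_le_mul_of_nonneg_left (hΘn u) (by positivity)
      _ = 2 * ε₁ ^ k₀ * nr u := by ring
  have hMrow : ∑ b, ‖M a b‖ ≤ 1 := by
    obtain ⟨R, hR⟩ : ∃ R : ℝ, R = ∑ b, ‖M a b‖ ^ 2 := ⟨_, rfl⟩
    have hR0 : 0 ≤ R := by rw [hR]; positivity
    have h1 : (M *ᵥ fun b => (starRingEnd ℂ) (M a b)) a = (R : ℂ) := by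
      rw [hR]
      show ∑ b, M a b * (starRingEnd ℂ) (M a b) = _
      push_cast
      exact Finset.sum_congr rfl fun b _ => by rw [Complex.mul_conj, Complex.normSq_eq_norm_sq]; push_cast; rfl
    have h2 : nr (fun b => (starRingEnd ℂ) (M a b)) = Real.sqrt R := by
      unfold nr n2
      rw [hR]
      congr 1
      exact Finset.sum_congr rfl fun b _ => by rw [RCLike.norm_conj]
    have h3 : R ≤ nr (M *ᵥ fun b => (starRingEnd ℂ) (M a b)) := by
      unfold nr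
      apply Real.le_sqrt_of_sq_le
      unfold n2
      have := Finset.single_le_sum (f := fun x => ‖(M *ᵥ fun b => (starRingEnd ℂ) (M a b)) x‖ ^ 2)
        (fun _ _ => by positivity) (Finset.mem_univ a)
      simp only [h1] at this
      rw [Complex.norm_real, Real.norm_of_nonneg hR0] at this
      exact this
    have h4 := hMn (fun b => (starRingEnd ℂ) (M a b))
    rw [h2] at h4
    have h5 := h3.trans h4
    have h6 : Real.sqrt R ≤ 2 * ε₁ ^ k₀ := by
      by_contra hlt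
      push Not at hlt
      have h7 : 0 < Real.sqrt R := lt_of_le_of_lt (by positivity) hlt
      have h8 := mul_lt_mul_of_pos_right hlt h7
      rw [Real.mul_self_sqrt hR0] at h8
      linarith
    have h7 : R ≤ 4 * ε₁ ^ (2 * k₀) := by
      have h8 := mul_self_le_mul_self (Real.sqrt_nonneg R) h6
      rw [Real.mul_self_sqrt hR0] at h8
      calc R ≤ 2 * ε₁ ^ k₀ * (2 * ε₁ ^ k₀) := h8
        _ = 4 * ε₁ ^ (2 * k₀) := by rw [pow_mul', sq]; ring
    have h8 : (∑ b, ‖M a b‖) ^ 2 ≤ (Fintype.card X : ℝ) * R := by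
      rw [hR]
      have := sq_sum_le_card_mul_sum_sq (s := (Finset.univ : Finset X)) (f := fun b => ‖M a b‖)
      rw [Finset.card_univ] at this
      exact this
    have h9 : (∑ b, ‖M a b‖) ^ 2 ≤ 1 := by
      have : (Fintype.card X : ℝ) * R ≤ (Fintype.card X : ℝ) * (4 * ε₁ ^ (2 * k₀)) :=
        mul_le_mul_of_nonneg_left h7 (Nat.cast_nonneg _)
      nlinarith
    exact (sq_le_one_iff₀ (Finset.sum_nonneg fun _ _ => norm_nonneg _)).1 h9
  have hYrow : ∀ (k : ℕ) (a : X), ∑ b, ‖(Y ^ k) a b‖ ≤ (1 + s) ^ k := by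
    intro k
    induction k with
    | zero =>
      intro a
      rw [pow_zero, pow_zero]
      rw [Finset.sum_eq_single a]
      · simp
      · intro b _ hb
        rw [Matrix.one_apply_ne hb.symm, norm_zero]
      · intro h; exact absurd (Finset.mem_univ a) h
    | succ k ih =>
      intro a
      calc ∑ b, ‖(Y ^ (k + 1)) a b‖ ≤ ∑ b, ∑ c, ‖(Y ^ k) a c‖ * ‖Y c b‖ := by
            refine Finset.sum_le_sum fun b _ => ?_
            rw [pow_succ, Matrix.mul_apply]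
            refine (norm_sum_le _ _).trans (le_of_eq ?_)
            exact Finset.sum_congr rfl fun c _ => norm_mul _ _
        _ = ∑ c, ‖(Y ^ k) a c‖ * ∑ b, ‖Y c b‖ := by
            rw [Finset.sum_comm]
            exact Finset.sum_congr rfl fun c _ => by rw [Finset.mul_sum]
        _ ≤ ∑ c, ‖(Y ^ k) a c‖ * (1 + s) := by
            refine Finset.sum_le_sum fun c _ => ?_
            exact mul_le_mul_of_nonneg_left (hrow c) (norm_nonneg _)
        _ = (∑ c, ‖(Y ^ k) a c‖) * (1 + s) := by rw [Finset.sum_mul]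
        _ ≤ (1 + s) ^ k * (1 + s) := mul_le_mul_of_nonneg_right (ih a) (by linarith)
        _ = (1 + s) ^ (k + 1) := by rw [pow_succ]
  have hexp : Θ = ∑ k ∈ Finset.range k₀, Y ^ k + M := by
    have h1 : (∑ k ∈ Finset.range k₀, Y ^ k) * (1 - Y) = 1 - Y ^ k₀ := geom_sum_mul_neg Y k₀
    have h2 : ∑ k ∈ Finset.range k₀, Y ^ k = (1 - Y ^ k₀) * Θ := by
      rw [← h1, Matrix.mul_assoc, hΘ1, Matrix.mul_one]
    rw [h2, hM, Matrix.sub_mul, Matrix.one_mul, sub_add_cancel]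
  calc ∑ b, ‖Θ a b‖ ≤ ∑ b, (∑ k ∈ Finset.range k₀, ‖(Y ^ k) a b‖ + ‖M a b‖) := by
        refine Finset.sum_le_sum fun b _ => ?_
        conv_lhs => rw [hexp]
        rw [Matrix.add_apply, Matrix.sum_apply]
        exact (norm_add_le _ _).trans (add_le_add (norm_sum_le _ _) le_rfl)
    _ = ∑ k ∈ Finset.range k₀, ∑ b, ‖(Y ^ k) a b‖ + ∑ b, ‖M a b‖ := by
        rw [Finset.sum_add_distrib, Finset.sum_comm]
    _ ≤ ∑ _k ∈ Finset.range k₀, (2 : ℝ) + 1 := by
        refine add_le_add (Finset.sum_le_sum fun k hk' => ?_) hMrow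
        refine (hYrow k a).trans ?_
        refine le_trans ?_ hk
        exact pow_le_pow_right₀ (by linarith) (Finset.mem_range.1 hk').le
    _ = 2 * k₀ + 1 := by
        rw [Finset.sum_const, Finset.card_range, nsmul_eq_mul]
        ring

end Pool.Agent.LE.QF.H41
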